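import Pool.Agent.helper48.TH.Spec

set_option autoImplicit false

namespace TP.TW

open DP MeasureTheory Finset

private theorem ZCH_geom (q : ℝ) (h0 : 0 ≤ q) (h1 : q < 1) (M : ℕ) : ∑ j ∈ range M, q ^ (j + 1) ≤ 1 / (1 - q) := by
  have h2 : (∑ j ∈ range M, q ^ j) * (1 - q) = 1 - q ^ M := geom_sum_mul_neg q M
  have h3 : 0 < 1 - q := by linarith
  have h4 : ∑ j ∈ range M, q ^ (j + 1) ≤ ∑ j ∈ range M, q ^ j := by
    refine sum_le_sum fun j _ => ?_
    rw [pow_succ]
    exact mul_le_of_le_one_right (pow_nonneg h0 _) h1.le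
  refine h4.trans ?_
  rw [le_div_iff₀ h3, h2]
  have := pow_nonneg h0 M
  linarith

/-- the coins outside the rectangle are replaced by `false` -/
private noncomputable def ZCH_r (R : Finset V) (β : V → Bool) (v : V) : Bool := if v ∈ R then β v else false

private theorem ZCH_br (a b d e : ℤ) (w : V) (hw : w ∈ rect a b d e) : br w ∈ rf a b d e := by
  unfold rf
  refine Finset.mem_image_of_mem _ ?_
  rw [Finset.mem_product, Finset.mem_Icc, Finset.mem_Icc]
  exact ⟨⟨hw.1, hw.2.1⟩, ⟨hw.2.2.1, hw.2.2.2⟩⟩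

private theorem ZCH_meet (rc : DP.RC_stmt) (o : Bool) (c c' : V → Bool) (k : Bool) (a b d e : ℤ) (S B : Finset V)
    (hcc : ∀ w ∈ rect a b d e, c w = c' w) (W : Set V) (u v : V) (hW : W ⊆ rect a b d e) (hcon : Con W u v)
    (hends : if o then u.1 = a ∧ v.1 = b else u.2 = d ∧ v.2 = e) (hB : ∀ w ∈ W, c' w = k → br w ∈ B)
    (h : crs o c k (til S) a b d e) : ∃ w ∈ rect a b d e, br w ∈ B ∧ br w ∈ S := by
  obtain ⟨u', v', hends', hconn⟩ := h
  have hmeet : (W ∩ {w | w ∈ rect a b d e ∩ til S ∧ c w = k}).Nonempty := by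
    cases o with
    | true =>
      simp only [if_true] at hends hends'
      exact rc a b d e W _ hW (fun w hw => hw.1.1) u v u' v' hends.1 hends.2 hends'.1 hends'.2
        hcon hconn
    | false =>
      simp only [Bool.false_eq_true, if_false] at hends hends'
      rw [Set.inter_comm]
      exact rc a b d e _ W (fun w hw => hw.1.1) hW u' v' u v hends'.1 hends'.2 hends.1 hends.2
        hconn hcon
  obtain ⟨z, hz1, hz2, hz3⟩ := hmeet
  refine ⟨z, hz2.1, hB z hz1 ?_, hz2.2⟩
  rw [← hcc z hz2.1]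
  exact hz3

open Classical in
theorem ZCH (rc : DP.RC_stmt) (ct0 : CT0_stmt) (men : MEN_stmt) (lcr : LCR_stmt) (ein : EIN_stmt)
    (bkm : BKM_stmt) (qrs : QRS_stmt) : ZCH_stmt := by
  obtain ⟨c₀, hc0, hc1, L, hL, hq⟩ := qrs
  refine ⟨1 / c₀, by positivity, L.toNat, by omega, ?_⟩
  intro o k a b d e hab hde h1 h2
  have hq0 : Pr (Ev fun c => crs o c k Set.univ a b d e) ≤ 1 - c₀ := by
    cases o with
    | true =>
      obtain ⟨h3, h4⟩ := h1 rfl
      exact (hq k a b d e hab hde).1 (by omega) h4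
    | false =>
      obtain ⟨h3, h4⟩ := h2 rfl
      exact (hq k a b d e hab hde).2 (by omega) h4
  let M : ℕ := (b - a + 1).toNat + (e - d + 1).toNat
  have hM1 : b - a + 1 ≤ (M : ℤ) := by simp only [M]; omega
  have hM2 : e - d + 1 ≤ (M : ℤ) := by simp only [M]; omega
  -- minimal cuts
  have hmin : ∀ β : V → Bool, ∃ B : Finset V, (∃ (W : Set V) (u v : V), W ⊆ rect a b d e ∧ Con W u v ∧
      (if o then u.1 = a ∧ v.1 = b else u.2 = d ∧ v.2 = e) ∧ ∀ w ∈ W, col β w = k → br w ∈ B) ∧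
      #B ≤ #{j ∈ range M | β ∈ (Ev fun c => many o c k a b d e (j + 1))} := by
    intro β
    have hex : ∃ K, cut o (col β) k a b d e K := ⟨M, ct0 o (col β) k a b d e M hab hde hM1 hM2⟩
    have hK := Nat.find_spec hex
    have hKM : Nat.find hex ≤ M := Nat.find_min' hex (ct0 o (col β) k a b d e M hab hde hM1 hM2)
    have h3 : range (Nat.find hex) ⊆ {j ∈ range M | β ∈ (Ev fun c => many o c k a b d e (j + 1))} := by
      intro j hj
      rw [mem_range] at hj
      rw [mem_filter, mem_range]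
      refine ⟨lt_of_lt_of_le hj hKM, ?_⟩
      have h4 : ¬ cut o (col β) k a b d e j := Nat.find_min hex hj
      exact (men o β k a b d e j hab hde).resolve_left h4
    have h4 := card_le_card h3
    rw [card_range] at h4
    obtain ⟨W, u, v, hW, hcon, hends, B, hBK, hB⟩ := hK
    exact ⟨B, ⟨W, u, v, hW, hcon, hends, hB⟩, hBK.trans h4⟩
  choose Z0 hZ1 hZ2 using hmin
  have hagree : ∀ (β : V → Bool) (w : V), w ∈ rect a b d e → ZCH_r (rf a b d e) β (br w) = β (br w) := by
    intro β w hw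
    unfold ZCH_r
    rw [if_pos (ZCH_br a b d e w hw)]
  have hZcd : ∀ z, CD {β | z ∈ (Z0 (ZCH_r (rf a b d e) β)).filter (· ∈ rf a b d e)} (rf a b d e) := by
    intro z β β' hββ
    have h3 : ZCH_r (rf a b d e) β = ZCH_r (rf a b d e) β' := by
      funext v
      unfold ZCH_r
      by_cases hv : v ∈ rf a b d e
      · rw [if_pos hv, if_pos hv]
        exact hββ v hv
      · rw [if_neg hv, if_neg hv]
    rw [Set.mem_setOf_eq, Set.mem_setOf_eq, h3]
  refine ⟨fun β => (Z0 (ZCH_r (rf a b d e) β)).filter (· ∈ rf a b d e), ?_, hZcd, ?_, ?_⟩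
  · intro β z hz
    exact (Finset.mem_filter.1 hz).2
  · intro β S hcrs
    obtain ⟨W, u, v, hW, hcon, hends, hB⟩ := hZ1 (ZCH_r (rf a b d e) β)
    obtain ⟨w, hw, hwB, hwS⟩ := ZCH_meet rc o (col β) (col (ZCH_r (rf a b d e) β)) k a b d e S
      (Z0 (ZCH_r (rf a b d e) β)) (fun w hw => (hagree β w hw).symm) W u v hW hcon hends hB hcrs
    exact ⟨br w, Finset.mem_filter.2 ⟨hwB, ZCH_br a b d e w hw⟩, hwS⟩
  · obtain ⟨F, hF⟩ : ∃ F : V → Set (V → Bool), F = fun z =>
        {β | z ∈ (Z0 (ZCH_r (rf a b d e) β)).filter (· ∈ rf a b d e)} := ⟨_, rfl⟩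
    have hFm : ∀ z β, β ∈ F z ↔ z ∈ (Z0 (ZCH_r (rf a b d e) β)).filter (· ∈ rf a b d e) := by
      intro z β
      rw [hF]
      rfl
    have hloc : ∀ z ∈ rf a b d e, Loc (F z) (rect a b d e) := by
      intro z _
      rw [hF]
      refine ⟨Icc a b ×ˢ Icc d e, ?_, ?_⟩
      · intro w hw
        rw [Finset.mem_coe, Finset.mem_product, Finset.mem_Icc, Finset.mem_Icc] at hw
        exact ⟨hw.1.1, hw.1.2, hw.2.1, hw.2.2⟩
      · intro β β' hββ
        refine hZcd z β β' ?_
        intro v hv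
        unfold rf at hv
        rw [Finset.mem_image] at hv
        obtain ⟨w, hw, rfl⟩ := hv
        exact hββ w (Finset.mem_coe.2 hw)
    have hpt : ∀ β : V → Bool, #{z ∈ rf a b d e | β ∈ F z} ≤
        1 * #{j ∈ range M | β ∈ (Ev fun c => many o c k a b d e (j + 1))} := by
      intro β
      rw [one_mul]
      have h3 : #{z ∈ rf a b d e | β ∈ F z} ≤
          #(Z0 (ZCH_r (rf a b d e) β)) := by
        refine Finset.card_le_card ?_
        intro z hz
        exact (Finset.mem_filter.1 ((hFm z β).1 (Finset.mem_filter.1 hz).2)).1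
      have h4 : #{j ∈ range M | ZCH_r (rf a b d e) β ∈ (Ev fun c => many o c k a b d e (j + 1))} ≤
          #{j ∈ range M | β ∈ (Ev fun c => many o c k a b d e (j + 1))} := by
        refine Finset.card_le_card ?_
        intro j hj
        rw [Finset.mem_filter] at hj ⊢
        refine ⟨hj.1, ?_⟩
        obtain ⟨Λ, hΛ, hdep⟩ := lcr.2.1 o k a b d e (j + 1)
        refine (hdep (ZCH_r (rf a b d e) β) β ?_).1 hj.2
        intro w hw
        exact hagree β w (hΛ hw)
      exact h3.trans ((hZ2 _).trans h4)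
    have h5 := ein V ℕ (rf a b d e) (range M) F
      (fun j => Ev fun c => many o c k a b d e (j + 1)) (rect a b d e) 1 hloc
      (fun j _ => lcr.2.1 o k a b d e (j + 1)) hpt
    have h6 : ∑ j ∈ range M, Pr (Ev fun c => many o c k a b d e (j + 1)) ≤ 1 / c₀ := by
      have h7 : ∀ j ∈ range M, Pr (Ev fun c => many o c k a b d e (j + 1)) ≤ (1 - c₀) ^ (j + 1) := by
        intro j _
        refine (bkm o k a b d e (j + 1)).trans ?_
        exact pow_le_pow_left₀ measureReal_nonneg hq0 _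
      refine (sum_le_sum h7).trans ?_
      have h8 := ZCH_geom (1 - c₀) (by linarith) (by linarith) M
      have h9 : 1 - (1 - c₀) = c₀ := by ring
      rwa [h9] at h8
    rw [Nat.cast_one, one_mul] at h5
    rw [hF] at h5
    exact h5.trans h6

end TP.TW
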